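import Pool.Agent.H32.EscapePolyC

/-!
# Shortest escape paths in polynomial lemniscates (Erdos)

For a monic polynomial `f` of degree `n` with all roots in the closed unit disc, `L f` is the
infimum of the lengths of the paths from `0` to the unit circle inside the set where
`‖f z‖ ≤ 1`, and `S n` is the supremum of `L f` over all such `f`.

We prove that `S n` grows at least like a power of `n`: `n ^ (1/30000) / 100 ≤ S n` for all `n ≥ 1`.
In particular `S n` tends to infinity. The construction is in the imported helper files.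
-/

open Set Filter Topology Polynomial MeasureTheory
open scoped ENNReal

namespace Pool.Agent.Results.MP_071f48_an.PolynomialLower

/-- `f` is admissible of degree `n`: monic, of degree `n`, with all roots in the closed unit
disc. -/
def Admissible (n : ℕ) (f : ℂ[X]) : Prop :=
  f.Monic ∧ f.natDegree = n ∧ ∀ z : ℂ, f.IsRoot z → ‖z‖ ≤ 1

/-- The lemniscate `E f = {z : ‖f z‖ ≤ 1}`. -/
def E (f : ℂ[X]) : Set ℂ := {z | ‖f.eval z‖ ≤ 1}

/-- `L f` is the infimum of the lengths (one-dimensional Hausdorff measures of the images) of the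
paths `γ : [0,1] → ℂ` with `γ 0 = 0`, `‖γ 1‖ = 1` and image contained in `E f`. -/
noncomputable def L (f : ℂ[X]) : ℝ≥0∞ :=
  ⨅ (γ : C(unitInterval, ℂ)) (_ : γ 0 = 0) (_ : ‖γ 1‖ = 1) (_ : range γ ⊆ E f), μH[1] (range γ)

/-- `S n` is the supremum of `L f` over all admissible `f` of degree `n`. -/
noncomputable def S (n : ℕ) : ℝ≥0∞ := ⨆ (f : ℂ[X]) (_ : Admissible n f), L f

theorem lower_bound {n : ℕ} (hn : 1 ≤ n) :
    ENNReal.ofReal ((n : ℝ) ^ ((1 : ℝ) / 30000) / 100) ≤ S n := by
  obtain ⟨f, hf1, hf2, hf3, hf4⟩ := H32.EscapePoly.lower hn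
  refine le_trans ?_ (le_iSup₂_of_le f ⟨hf1, hf2, hf3⟩ le_rfl)
  exact le_iInf fun γ => le_iInf fun h0 => le_iInf fun h1 => le_iInf fun hE => hf4 γ h0 h1 hE

/-- `S n` grows at least like a power of `n`; in particular it tends to infinity, as Erdos
conjectured. -/
theorem result :
    (∀ n : ℕ, 1 ≤ n → ENNReal.ofReal ((n : ℝ) ^ ((1 : ℝ) / 30000) / 100) ≤ S n) ∧
    Tendsto S atTop (𝓝 ⊤) := by
  refine ⟨fun n hn => lower_bound hn, ?_⟩
  have h1 : Tendsto (fun n : ℕ => ENNReal.ofReal ((n : ℝ) ^ ((1 : ℝ) / 30000) / 100)) atTop (𝓝 ⊤) := by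
    rw [ENNReal.tendsto_ofReal_nhds_top]
    apply Tendsto.atTop_div_const (by norm_num)
    exact (tendsto_rpow_atTop (by norm_num)).comp tendsto_natCast_atTop_atTop
  refine tendsto_nhds_top_mono h1 ?_
  filter_upwards [eventually_ge_atTop 1] with n hn
  exact lower_bound hn

end Pool.Agent.Results.MP_071f48_an.PolynomialLower
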