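import Pool.Agent.Lib.EscapeRay.Upper

/-!
# Shortest escape paths in polynomial lemniscates (Erdos): the upper bound

For a monic polynomial `f` of degree `n` with all roots in the closed unit disc, `L f` is the
infimum of the lengths of the paths from `0` to the unit circle inside the set where
`‖f z‖ ≤ 1`, and `S n` is the supremum of `L f` over all such `f`.

We prove `S n ≤ 29 √n` for all `n ≥ 1`.  The path is a branch of the inverse of
`F z = ∑ log (1 - conj w * z)` (sum over the roots `w` of `f`) along a ray from `0` in the left half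
plane; the average length of these paths is estimated by a length-area argument, in which the
distance to the origin along each path is controlled by an interpolation inequality for
polynomials.
-/

open Set Filter Topology Polynomial MeasureTheory
open scoped ENNReal

namespace Pool.Agent.Results.MP_071f48_an.SqrtUpper

/-- `f` is admissible of degree `n`: monic, of degree `n`, with all roots in the closed unit
disc. -/
def Admissible (n : ℕ) (f : ℂ[X]) : Prop :=
  f.Monic ∧ f.natDegree = n ∧ ∀ z : ℂ, f.IsRoot z → ‖z‖ ≤ 1

/-- The lemniscate `E f = {z : ‖f z‖ ≤ 1}`. -/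
def E (f : ℂ[X]) : Set ℂ := {z | ‖f.eval z‖ ≤ 1}

/-- `L f` is the infimum of the lengths (one-dimensional Hausdorff measures of the images) of the
paths `γ : [0,1] → ℂ` with `γ 0 = 0`, `‖γ 1‖ = 1` and image contained in `E f`. -/
noncomputable def L (f : ℂ[X]) : ℝ≥0∞ :=
  ⨅ (γ : C(unitInterval, ℂ)) (_ : γ 0 = 0) (_ : ‖γ 1‖ = 1) (_ : range γ ⊆ E f), μH[1] (range γ)

/-- `S n` is the supremum of `L f` over all admissible `f` of degree `n`. -/
noncomputable def S (n : ℕ) : ℝ≥0∞ := ⨆ (f : ℂ[X]) (_ : Admissible n f), L f

/-- `S n ≤ 29 √n` for all `n ≥ 1`; in particular `S n` is finite. -/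
theorem result : ∀ n : ℕ, 1 ≤ n → S n ≤ ENNReal.ofReal (29 * Real.sqrt n) := by
  intro n hn
  refine iSup₂_le fun f hf => ?_
  obtain ⟨γ, h0, h1, h2, h3⟩ := Pool.Agent.Lib.EscapeRay.upper hf.1 hf.2.1 hn hf.2.2
  exact (iInf_le_of_le γ (iInf_le_of_le h0 (iInf_le_of_le h1 (iInf_le_of_le h2 le_rfl)))).trans h3

end Pool.Agent.Results.MP_071f48_an.SqrtUpper
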